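import Pool.Agent.helper13.RF.Spec2

/-! # Row rf:CGB (MP_16912e_nt): the sum over the primes of a character of the class group is bounded above -/

set_option autoImplicit false

open NumberField IsDedekindDomain
open scoped nonZeroDivisors

namespace Pool.Agent.RF

theorem CGB_cc1 {F : Type} [Field F] [NumberField F] {χ : Ideal (𝓞 F) → ℂ} (h : CH.CM χ) : CH.cc χ 1 = 1 := by
  have h1 : CH.idl F 1 = {⊤} := by
    ext a
    unfold CH.idl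
    rw [Set.Finite.mem_toFinset, Finset.mem_singleton]
    exact Ideal.absNorm_eq_one_iff
  unfold CH.cc
  rw [h1, Finset.sum_singleton, h.one]

theorem CGB (hCID : CH.CID_stmt) (hCSM : CH.CSM_stmt) (hEXL : CH.EXL_stmt) (hLGB : CH.LGB_stmt)
    (hCGL : CGL_stmt) : CGB_stmt := by
  intro K _ _ ψ hψ
  obtain ⟨hχ, hL⟩ := hCGL K ψ
  obtain ⟨L, hLd, hLs⟩ := hL hψ
  obtain ⟨CB, hCB⟩ := hLGB K
  obtain ⟨χ, hχd⟩ : ∃ χ, χ = cx K ψ := ⟨_, rfl⟩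
  rw [← hχd] at hχ hLs ⊢
  have hexp : ∀ s : ℂ, 1 < s.re → Complex.exp (LSeries (CH.lg χ) s) = L s := by
    intro s hs
    have h1 := (hEXL (CH.cc χ) (CH.zz χ) (CGB_cc1 hχ)
      (fun s hs => ⟨(hCSM K χ hχ s hs).1, (hCSM K χ hχ s hs).2.1⟩) (fun n hn => hCID K χ hχ n hn)
      (fun s hs => (hCSM K χ hχ s hs).2.2) s hs).1
    rw [← hLs s hs, ← h1]
    rfl
  have hc : Continuous fun s : ℝ => ‖L s‖ := (hLd.continuous.comp Complex.continuous_ofReal).norm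
  have h6 : ∀ᶠ s : ℝ in nhds 1, ‖L s‖ < ‖L ((1 : ℝ) : ℂ)‖ + 1 :=
    hc.continuousAt.eventually (Iio_mem_nhds (lt_add_one _))
  obtain ⟨δ, hδ, h7⟩ := Metric.eventually_nhds_iff.1 h6
  refine ⟨CB + Real.log (‖L ((1 : ℝ) : ℂ)‖ + 1), δ, hδ, fun s hs hs' => ?_⟩
  have h8 : ‖L s‖ < ‖L ((1 : ℝ) : ℂ)‖ + 1 := h7 (by
    rw [Real.dist_eq, abs_lt]
    constructor <;> linarith)
  have h9 : Real.exp (LSeries (CH.lg χ) (s : ℂ)).re ≤ ‖L ((1 : ℝ) : ℂ)‖ + 1 := by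
    rw [← Complex.norm_exp, hexp (s : ℂ) (by rw [Complex.ofReal_re]; exact hs)]
    exact h8.le
  have h10 : (LSeries (CH.lg χ) (s : ℂ)).re ≤ Real.log (‖L ((1 : ℝ) : ℂ)‖ + 1) := by
    rw [← Real.log_exp (LSeries (CH.lg χ) (s : ℂ)).re]
    exact Real.log_le_log (Real.exp_pos _) h9
  have h11 := (hCB χ hχ s hs).2.2.1
  obtain ⟨T, hT⟩ : ∃ T : ℂ, T = ∑' p : Nat.Primes, CH.cc χ p * (((p : ℕ) : ℂ) ^ (-(s : ℂ))) := ⟨_, rfl⟩
  rw [← hT] at h11 ⊢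
  have h12 : -(LSeries (CH.lg χ) (s : ℂ) - T).re ≤ CB :=
    (neg_le_abs _).trans ((Complex.abs_re_le_norm _).trans h11)
  rw [Complex.sub_re] at h12
  linarith

end Pool.Agent.RF
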