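import Pool.Agent.helper13.RF.Spec2

/-! # Row rf:CGL (MP_16912e_nt): characters of the class group and their L-functions -/

set_option autoImplicit false

open NumberField IsDedekindDomain
open scoped nonZeroDivisors

namespace Pool.Agent.RF

theorem CGL_log {a b p q : ℕ} (hp : p.Prime) (hq : q.Prime) (hpq : p ≠ q) (ha : a ≠ 0)
    (h : (a : ℝ) * Real.log p = (b : ℝ) * Real.log q) : False := by
  rw [← Real.log_pow, ← Real.log_pow] at h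
  have hp0 : (0 : ℝ) < (p : ℝ) ^ a := by have := hp.pos; positivity
  have hq0 : (0 : ℝ) < (q : ℝ) ^ b := by have := hq.pos; positivity
  have h1 := Real.log_injOn_pos (Set.mem_Ioi.2 hp0) (Set.mem_Ioi.2 hq0) h
  have h2 : p ^ a = q ^ b := by exact_mod_cast h1
  have h3 : p ∣ q ^ b := by
    rw [← h2]
    exact dvd_pow_self p ha
  exact hpq ((Nat.prime_dvd_prime_iff_eq hp hq).1 (hp.dvd_of_dvd_pow h3))

theorem CGL_exp {x : ℝ} (h : Complex.exp (-((x : ℝ) : ℂ) * Complex.I) = 1) : ∃ A : ℤ, x = 2 * Real.pi * A := by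
  rw [Complex.exp_eq_one_iff] at h
  obtain ⟨n, hn⟩ := h
  refine ⟨-n, ?_⟩
  have h1 : (-(x : ℂ)) = (n : ℂ) * (2 * Real.pi) := by
    have h2 : (-(x : ℂ)) * Complex.I = ((n : ℂ) * (2 * Real.pi)) * Complex.I := by rw [hn]; ring
    exact mul_right_cancel₀ Complex.I_ne_zero h2
  have h3 : (((-x : ℝ)) : ℂ) = (((n : ℝ) * (2 * Real.pi) : ℝ) : ℂ) := by
    push_cast
    exact h1
  have h4 : -x = (n : ℝ) * (2 * Real.pi) := Complex.ofReal_injective h3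
  push_cast
  linarith

section

variable {K : Type} [Field K] [NumberField K] (ψ : ClassGroup (𝓞 K) →* ℂˣ)

theorem CGL_bot : cx K ψ ⊥ = 0 := by
  unfold cx
  exact dif_pos rfl

theorem CGL_ne (a : (Ideal (𝓞 K))⁰) : cx K ψ (a : Ideal (𝓞 K)) = ((ψ (ClassGroup.mk0 a) : ℂˣ) : ℂ) := by
  have h : (a : Ideal (𝓞 K)) ≠ ⊥ := nonZeroDivisors.ne_zero a.2
  unfold cx
  rw [dif_neg h]

theorem CGL_top : cx K ψ ⊤ = 1 := by
  have h1 : ((1 : (Ideal (𝓞 K))⁰) : Ideal (𝓞 K)) = ⊤ := by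
    rw [Submonoid.coe_one, Ideal.one_eq_top]
  rw [← h1, CGL_ne, map_one, map_one, Units.val_one]

theorem CGL_mul (a b : Ideal (𝓞 K)) : cx K ψ (a * b) = cx K ψ a * cx K ψ b := by
  by_cases ha : a = ⊥
  · rw [ha, Ideal.bot_mul, CGL_bot, zero_mul]
  by_cases hb : b = ⊥
  · rw [hb, Ideal.mul_bot, CGL_bot, mul_zero]
  obtain ⟨a', rfl⟩ : ∃ a' : (Ideal (𝓞 K))⁰, (a' : Ideal (𝓞 K)) = a := ⟨⟨a, mem_nonZeroDivisors_iff_ne_zero.mpr ha⟩, rfl⟩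
  obtain ⟨b', rfl⟩ : ∃ b' : (Ideal (𝓞 K))⁰, (b' : Ideal (𝓞 K)) = b := ⟨⟨b, mem_nonZeroDivisors_iff_ne_zero.mpr hb⟩, rfl⟩
  rw [← Submonoid.coe_mul, CGL_ne, CGL_ne, CGL_ne, map_mul, map_mul, Units.val_mul]

theorem CGL_unit (a : Ideal (𝓞 K)) (ha : a ≠ ⊥) : ‖cx K ψ a‖ = 1 := by
  obtain ⟨a', rfl⟩ : ∃ a' : (Ideal (𝓞 K))⁰, (a' : Ideal (𝓞 K)) = a := ⟨⟨a, mem_nonZeroDivisors_iff_ne_zero.mpr ha⟩, rfl⟩
  rw [CGL_ne]
  have h1 : (ClassGroup.mk0 a') ^ Nat.card (ClassGroup (𝓞 K)) = 1 := pow_card_eq_one'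
  have h2 : (((ψ (ClassGroup.mk0 a') : ℂˣ) : ℂ)) ^ Nat.card (ClassGroup (𝓞 K)) = 1 := by
    rw [← Units.val_pow_eq_pow_val, ← map_pow, h1, map_one, Units.val_one]
  have h3 := congrArg norm h2
  rw [norm_pow, norm_one] at h3
  exact (pow_eq_one_iff_of_nonneg (norm_nonneg _) Nat.card_pos.ne').1 h3

theorem CGL_span (x : 𝓞 K) (hx : x ≠ 0) : cx K ψ (Ideal.span {x}) = 1 := by
  have h0 : Ideal.span {x} ≠ ⊥ := by
    rw [Ne, Ideal.span_singleton_eq_bot]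
    exact hx
  obtain ⟨a', ha'⟩ : ∃ a' : (Ideal (𝓞 K))⁰, (a' : Ideal (𝓞 K)) = Ideal.span {x} :=
    ⟨⟨Ideal.span {x}, mem_nonZeroDivisors_iff_ne_zero.mpr h0⟩, rfl⟩
  have h1 : ClassGroup.mk0 a' = 1 := by
    rw [ClassGroup.mk0_eq_one_iff, ha']
    exact ⟨⟨x, rfl⟩⟩
  rw [← ha', CGL_ne, h1, map_one, Units.val_one]

theorem CGL_hmo : CH.HMo ⊤ (cx K ψ) where
  q0 := top_ne_bot
  bot := CGL_bot ψ
  one := CGL_top ψ
  mul := CGL_mul ψ
  unit := fun a ha _ => CGL_unit ψ a ha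
  zero := fun a ha => absurd (sup_top_eq a) ha
  per := fun x y hx hy _ _ => by rw [CGL_span ψ x hx, CGL_span ψ y hy]

theorem CGL_cm : CH.CM (cx K ψ) where
  bot := CGL_bot ψ
  one := CGL_top ψ
  mul := CGL_mul ψ
  bd := fun a => by
    by_cases h : a = ⊥
    · rw [h, CGL_bot, norm_zero]
      exact zero_le_one
    · exact (CGL_unit ψ a h).le

theorem CGL_nt (hψ : ψ ≠ 1) : UN.NT (cx K ψ) := by
  rintro ⟨t₀, ht⟩
  by_cases h0 : t₀ = 0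
  · subst h0
    apply hψ
    refine MonoidHom.ext fun c => ?_
    obtain ⟨I, rfl⟩ := ClassGroup.mk0_surjective c
    have h1 := ht (I : Ideal (𝓞 K)) (nonZeroDivisors.ne_zero I.2)
    rw [CGL_ne] at h1
    apply Units.ext
    rw [h1]
    unfold UN.ph
    simp
  have hn : 0 < Module.finrank ℚ K := Module.finrank_pos
  have key : ∀ p : ℕ, p.Prime → ∃ A : ℤ, t₀ * (Module.finrank ℚ K : ℝ) * Real.log p = 2 * Real.pi * A := by
    intro p hp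
    have hpF : ((p : ℕ) : 𝓞 K) ≠ 0 := by exact_mod_cast hp.ne_zero
    have hne : Ideal.span {((p : ℕ) : 𝓞 K)} ≠ ⊥ := by
      rw [Ne, Ideal.span_singleton_eq_bot]
      exact hpF
    have hN : Ideal.absNorm (Ideal.span {((p : ℕ) : 𝓞 K)}) = p ^ Module.finrank ℚ K := by
      rw [Ideal.absNorm_span_natCast, NumberField.RingOfIntegers.rank]
    have h3 := CGL_span ψ ((p : ℕ) : 𝓞 K) hpF
    rw [ht _ hne] at h3
    unfold UN.ph at h3
    have h5 : -(((t₀ * Real.log (UN.Nm (Ideal.span {((p : ℕ) : 𝓞 K)}))) : ℝ) : ℂ) * Complex.I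
        = -(((t₀ * (Module.finrank ℚ K : ℝ) * Real.log p : ℝ)) : ℂ) * Complex.I := by
      unfold UN.Nm
      rw [hN]
      push_cast
      rw [Real.log_pow]
      push_cast
      ring
    rw [h5] at h3
    exact CGL_exp h3
  obtain ⟨A, hA⟩ := key 2 Nat.prime_two
  obtain ⟨B, hB⟩ := key 3 Nat.prime_three
  obtain ⟨c, hc⟩ : ∃ c : ℝ, c = t₀ * (Module.finrank ℚ K : ℝ) := ⟨_, rfl⟩
  rw [← hc] at hA hB
  have hc0 : c ≠ 0 := by
    rw [hc]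
    have h1 : (Module.finrank ℚ K : ℝ) ≠ 0 := by exact_mod_cast hn.ne'
    exact mul_ne_zero h0 h1
  have hlp : 0 < Real.log ((2 : ℕ) : ℝ) := Real.log_pos (by norm_num)
  have hlq : 0 < Real.log ((3 : ℕ) : ℝ) := Real.log_pos (by norm_num)
  have hpi := Real.pi_pos
  have hB0 : B ≠ 0 := by
    intro h
    rw [h] at hB
    simp only [Int.cast_zero, mul_zero] at hB
    exact (mul_ne_zero hc0 hlq.ne') hB
  have hAB : (B : ℝ) * Real.log ((2 : ℕ) : ℝ) = (A : ℝ) * Real.log ((3 : ℕ) : ℝ) := by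
    have h1 : c * ((B : ℝ) * Real.log ((2 : ℕ) : ℝ)) = c * ((A : ℝ) * Real.log ((3 : ℕ) : ℝ)) := by
      calc c * ((B : ℝ) * Real.log ((2 : ℕ) : ℝ)) = B * (c * Real.log ((2 : ℕ) : ℝ)) := by ring
        _ = A * (c * Real.log ((3 : ℕ) : ℝ)) := by rw [hA, hB]; ring
        _ = c * ((A : ℝ) * Real.log ((3 : ℕ) : ℝ)) := by ring
    exact mul_left_cancel₀ hc0 h1
  have habs : ((B.natAbs : ℕ) : ℝ) * Real.log ((2 : ℕ) : ℝ) = ((A.natAbs : ℕ) : ℝ) * Real.log ((3 : ℕ) : ℝ) := by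
    have h1 := congrArg abs hAB
    rw [abs_mul, abs_mul, abs_of_pos hlp, abs_of_pos hlq] at h1
    rw [Nat.cast_natAbs, Nat.cast_natAbs]
    push_cast at h1 ⊢
    exact h1
  exact CGL_log Nat.prime_two Nat.prime_three (by decide) (Int.natAbs_ne_zero.2 hB0) habs

end

theorem CGL (hMAX : CH.MAX_stmt) (hTSL : CH.TSL_stmt) (hHLE : UN.HLE_stmt) : CGL_stmt := by
  intro K _ _ ψ
  refine ⟨CGL_cm ψ, fun hψ => ?_⟩
  obtain ⟨f, χ, _, hG, hχ⟩ := hMAX K ⊤ (cx K ψ) (CGL_hmo ψ)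
  have h1 : χ = cx K ψ := by
    funext a
    by_cases h : a = ⊥
    · rw [h, hG.bot, CGL_bot]
    · exact hχ a h (sup_top_eq a)
  rw [h1] at hG
  obtain ⟨L, hL⟩ := hHLE K f (cx K ψ) 0 0 hG (CGL_nt ψ hψ)
  refine ⟨L, hL.entire, fun s hs => ?_⟩
  rw [hL.series s hs]
  exact (hTSL K (cx K ψ) (CGL_cm ψ) s hs).symm

end Pool.Agent.RF
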