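import Pool.Agent.helper13.RF.SpecU

set_option autoImplicit false

namespace Pool.Agent.RF

open NumberField

theorem UTI (h1 : UUE_stmt) : UTI_stmt := by
  intro D₀ F _ _ C o p q f ho hp hq hoD hpD hqD z₁ z₂ z hz1 hz2 hz
  obtain ⟨-, -, o3, -, -, -, -, -, oww, -, ow0, -, -, -, on0, -, -, os4, oinj⟩ := h1 D₀ F C o f ho hoD
  have key : C.σ (C.σ z₁) * z₂ = C.ι o.n * z := by
    apply C.z5
    have e1 : C.σ (C.σ z₁) ^ 5 = uu C f o * C.σ (C.σ (uu C f p)) := by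
      rw [← map_pow, ← map_pow, hz1, map_mul, map_mul, os4]
    calc (C.σ (C.σ z₁) * z₂) ^ 5 = C.σ (C.σ z₁) ^ 5 * z₂ ^ 5 := by ring
      _ = (uu C f o * C.σ (C.σ (uu C f p))) * (C.σ (C.σ (uu C f o)) * uu C f q) := by rw [e1, hz2]
      _ = (uu C f o * C.σ (C.σ (uu C f o))) * (C.σ (C.σ (uu C f p)) * uu C f q) := by ring
      _ = C.ι o.n ^ 5 * z ^ 5 := by rw [o3, hz]
      _ = (C.ι o.n * z) ^ 5 := by ring
  refine ⟨key, ?_⟩
  intro a₁ b₁ a₂ b₂ a b ha1 ha2 ha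
  have e2 : 10 * C.σ (C.σ z₁) = C.ι a₁ - C.ι b₁ * C.w := by
    have h := congrArg (fun x => C.σ (C.σ x)) ha1
    simp only [map_mul, map_add, map_ofNat, C.σι, star_star, oww] at h
    rw [h]
    ring
  have hD0 : C.ι (D₀ : OO) = (D₀ : 𝓞 F) := map_intCast _ _
  have h10 : C.ι (10 : OO) = (10 : 𝓞 F) := map_ofNat _ _
  have e3 : C.ι (a₁ * a₂ + b₁ * b₂ * w2 * (D₀ : OO) - 10 * o.n * a) +
      C.ι (a₁ * b₂ - a₂ * b₁ - 10 * o.n * b) * C.w = 0 := by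
    simp only [map_add, map_sub, map_mul, hD0, h10]
    have ww := C.ww
    linear_combination (10 * z₂) * (-e2) + (-(C.ι a₁ - C.ι b₁ * C.w)) * ha2 + 100 * key +
      10 * C.ι o.n * ha + C.ι b₁ * C.ι b₂ * ww
  have h := (C.ind _ _ e3).2
  linear_combination h

end Pool.Agent.RF
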