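import Pool.Agent.helper95.RF.SpecC

/-! # Row rf:CFB (MP_16912e_nt): the number of points of a fibre, from arcs -/

set_option autoImplicit false

namespace Pool.Agent.RF

open Finset NumberField Pool.Agent.helper3.FT

theorem CFB_e_add (x y : ℝ) : e (x + y) = e x * e y := by
  unfold e
  rw [← Complex.exp_add]
  congr 1
  push_cast
  ring

theorem CFB_e_norm (x : ℝ) : ‖e x‖ = 1 := by
  unfold e
  have h : 2 * (Real.pi : ℂ) * Complex.I * (x : ℂ) = ((2 * Real.pi * x : ℝ) : ℂ) * Complex.I := by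
    push_cast
    ring
  rw [h, Complex.norm_exp_ofReal_mul_I]

/-- an integer `w` modulo `q` in a window of integers is a point `w / q` modulo `1` in an arc -/
theorem CFB_arc (w z₀ : ℤ) (V q : ℕ) (hq : 0 < q) :
    (∃ z ∈ Ico z₀ (z₀ + V), (q : ℤ) ∣ z - w) ↔
      ∃ z : ℤ, (z₀ : ℝ) / q ≤ (w : ℝ) / q - z ∧ (w : ℝ) / q - z < (z₀ : ℝ) / q + (V : ℝ) / q := by
  have hqR : (0 : ℝ) < q := by exact_mod_cast hq
  have key : ∀ j : ℤ, ((z₀ : ℝ) / q ≤ (w : ℝ) / q - j ∧ (w : ℝ) / q - j < (z₀ : ℝ) / q + (V : ℝ) / q) ↔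
      (z₀ ≤ w - q * j ∧ w - q * j < z₀ + V) := by
    intro j
    have e1 : (w : ℝ) / q - j = ((w - q * j : ℤ) : ℝ) / q := by
      push_cast
      field_simp
    have e2 : (z₀ : ℝ) / q + (V : ℝ) / q = ((z₀ + V : ℤ) : ℝ) / q := by
      push_cast
      field_simp
    rw [e1, e2, div_le_div_iff_of_pos_right hqR, div_lt_div_iff_of_pos_right hqR, Int.cast_le, Int.cast_lt]
  constructor
  · rintro ⟨z, hz, j, hj⟩
    rw [Finset.mem_Ico] at hz
    refine ⟨-j, (key (-j)).2 ?_⟩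
    have : w - q * (-j) = z := by linarith
    rw [this]
    exact hz
  · rintro ⟨j, hj⟩
    have h := (key j).1 hj
    refine ⟨w - q * j, Finset.mem_Ico.2 h, -j, by ring⟩

theorem CFB (h1 : T5.ARC_stmt) : CFB_stmt := by
  classical
  intro η hη hη1
  obtain ⟨R, C, hR, hC, harc⟩ := h1 η hη hη1
  refine ⟨R, C, hR, hC, ?_⟩
  intro x₀ y₀ z₀ L V q H a b d e₁ e₂ c hL hV hVq hRq
  obtain ⟨A, hA⟩ : ∃ A, A = Ico x₀ (x₀ + L) := ⟨_, rfl⟩
  obtain ⟨B, hB⟩ : ∃ B, B = Ico y₀ (y₀ + L) := ⟨_, rfl⟩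
  have hq0 : 0 < q := by omega
  have hq : (0 : ℝ) < q := by exact_mod_cast hq0
  have hV0 : (0 : ℝ) < V := by exact_mod_cast hV
  have hVqR : 4 * (V : ℝ) ≤ q := by exact_mod_cast hVq
  have hl : (0 : ℝ) < (V : ℝ) / q := by positivity
  have hl4 : (V : ℝ) / q ≤ 1 / 4 := by
    rw [div_le_iff₀ hq]
    linarith
  have hRl : R ≤ H * ((V : ℝ) / q) := by
    rw [mul_div_assoc', le_div_iff₀ hq]
    exact hRq
  obtain ⟨W, hW⟩ : ∃ W : ℤ × ℤ → ℤ, W = fun i => a * i.1 ^ 2 + b * i.1 * i.2 + d * i.2 ^ 2 + e₁ * i.1 + e₂ * i.2 + c :=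
    ⟨_, rfl⟩
  have hWd : ∀ i, W i = a * i.1 ^ 2 + b * i.1 * i.2 + d * i.2 ^ 2 + e₁ * i.1 + e₂ * i.2 + c := fun i => by rw [hW]
  have h0 := harc (A ×ˢ B) (fun i : ℤ × ℤ => ((W i : ℤ) : ℝ) / q)
    ((z₀ : ℝ) / q) ((V : ℝ) / q) H hl hl4 hRl
  have hmem : ∀ t : ℤ × ℤ × ℤ, t ∈ FB x₀ y₀ z₀ L V q a b d e₁ e₂ c ↔
      (t.1 ∈ A ∧ t.2.1 ∈ B ∧ t.2.2 ∈ Ico z₀ (z₀ + V)) ∧ (q : ℤ) ∣ t.2.2 - W (t.1, t.2.1) := by
    intro t
    unfold FB
    rw [← hA, ← hB, Finset.mem_filter, Finset.mem_product, Finset.mem_product, hWd]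
  -- the fibre
  have hcard : (FB x₀ y₀ z₀ L V q a b d e₁ e₂ c).card = ((A ×ˢ B).filter (fun i =>
      ∃ z ∈ Ico z₀ (z₀ + V), (q : ℤ) ∣ z - W i)).card := by
    refine Finset.card_bij (fun t _ => (t.1, t.2.1)) ?_ ?_ ?_
    · intro t ht
      rw [hmem] at ht
      rw [Finset.mem_filter, Finset.mem_product]
      exact ⟨⟨ht.1.1, ht.1.2.1⟩, t.2.2, ht.1.2.2, ht.2⟩
    · intro t ht t' ht' h
      rw [hmem] at ht ht'
      obtain ⟨⟨-, -, hz⟩, hd⟩ := ht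
      obtain ⟨⟨-, -, hz'⟩, hd'⟩ := ht'
      have e1 : t.1 = t'.1 := (Prod.mk.inj h).1
      have e2 : t.2.1 = t'.2.1 := (Prod.mk.inj h).2
      have e3 : t.2.2 = t'.2.2 := by
        rw [← e1, ← e2] at hd'
        have hsub := dvd_sub hd hd'
        rw [sub_sub_sub_cancel_right] at hsub
        rw [Finset.mem_Ico] at hz hz'
        have hlt : |t.2.2 - t'.2.2| < q := by
          have : 4 * (V : ℤ) ≤ q := by exact_mod_cast hVq
          rw [abs_lt]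
          constructor <;> linarith [hz.1, hz.2, hz'.1, hz'.2]
        have := Int.eq_zero_of_abs_lt_dvd hsub hlt
        linarith
      exact Prod.ext e1 (Prod.ext e2 e3)
    · intro i hi
      rw [Finset.mem_filter, Finset.mem_product] at hi
      obtain ⟨⟨hi1, hi2⟩, z, hz, hd⟩ := hi
      refine ⟨(i.1, i.2, z), ?_, rfl⟩
      rw [hmem]
      exact ⟨⟨hi1, hi2, hz⟩, hd⟩
  have hcard' : ((FB x₀ y₀ z₀ L V q a b d e₁ e₂ c).card : ℝ) = (((A ×ˢ B).filter (fun i : ℤ × ℤ =>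
      ∃ z : ℤ, (z₀ : ℝ) / q ≤ ((W i : ℤ) : ℝ) / q - z ∧
        ((W i : ℤ) : ℝ) / q - z < (z₀ : ℝ) / q + (V : ℝ) / q)).card : ℝ) := by
    rw [hcard]
    congr 2
    apply Finset.filter_congr
    intro i _
    exact CFB_arc _ _ _ _ hq0
  -- the exponential sums
  have hfA : A.filter (fun m => ((1 : ℕ) : ℤ) ∣ m - 0) = A := by
    apply Finset.filter_true_of_mem
    intro m _
    rw [Nat.cast_one]
    exact one_dvd _
  have hfB : B.filter (fun m => ((1 : ℕ) : ℤ) ∣ m - 0) = B := by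
    apply Finset.filter_true_of_mem
    intro m _
    rw [Nat.cast_one]
    exact one_dvd _
  have hES : ∀ h : ℕ, ‖∑ i ∈ A ×ˢ B, e (h * (((W i : ℤ) : ℝ) / q))‖ =
      ‖T5.ESg x₀ y₀ L L 1 0 0 ((h : ℝ) * a / q) ((h : ℝ) * b / q) ((h : ℝ) * d / q)
          ((h : ℝ) * e₁ / q) ((h : ℝ) * e₂ / q)‖ := by
    intro h
    have h2 : ∑ i ∈ A ×ˢ B, e (h * (((W i : ℤ) : ℝ) / q)) =
        e (h * c / q) * T5.ESg x₀ y₀ L L 1 0 0 ((h : ℝ) * a / q) ((h : ℝ) * b / q) ((h : ℝ) * d / q)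
          ((h : ℝ) * e₁ / q) ((h : ℝ) * e₂ / q) := by
      unfold T5.ESg
      rw [← hA, ← hB, hfA, hfB, Finset.sum_product, Finset.mul_sum]
      refine Finset.sum_congr rfl fun m _ => ?_
      rw [Finset.mul_sum]
      refine Finset.sum_congr rfl fun g _ => ?_
      rw [← CFB_e_add, hWd]
      congr 1
      push_cast
      ring
    rw [h2, norm_mul, CFB_e_norm, one_mul]
  rw [← Finset.mul_sum] at h0
  simp only [hES] at h0
  have hAB : ((A ×ˢ B).card : ℝ) = (L : ℝ) ^ 2 := by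
    rw [Finset.card_product, hA, hB, Int.card_Ico, Int.card_Ico]
    have e1 : (x₀ + (L : ℤ) - x₀).toNat = L := by omega
    have e2 : (y₀ + (L : ℤ) - y₀).toNat = L := by omega
    rw [e1, e2]
    push_cast
    ring
  rw [hAB, ← hcard'] at h0
  have e3 : (L : ℝ) ^ 2 * V / q = (L : ℝ) ^ 2 * ((V : ℝ) / q) := by ring
  rw [e3]
  refine h0.trans (le_of_eq ?_)
  ring

end Pool.Agent.RF
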