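import Pool.Agent.helper95.RF.SpecC

set_option autoImplicit false

/-!
# RF, row rf:CKS: one element `k` for each prime
-/

namespace Pool.Agent.RF

open Finset NumberField Pool.Agent.helper3.FT

lemma CKS_abs (x : ℝ) (q Q : ℕ) (h : x ^ 2 ≤ 2 * (q : ℝ)) (hq : q ≤ 2 * Q) :
    |x| ≤ 2 * √(Q : ℝ) := by
  have h1 : (q : ℝ) ≤ 2 * Q := by exact_mod_cast hq
  have h2 : x ^ 2 ≤ 4 * (Q : ℝ) := by linarith
  have h3 := Real.abs_le_sqrt h2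
  have h4 : √(4 * (Q : ℝ)) = 2 * √(Q : ℝ) := by
    rw [Real.sqrt_mul (by norm_num)]
    have h5 : √(4 : ℝ) = 2 := by
      rw [show (4 : ℝ) = 2 ^ 2 by norm_num]
      exact Real.sqrt_sq (by norm_num)
    rw [h5]
  rw [h4] at h3
  exact h3

/-- one element for each prime of the set -/
lemma CKS_elem (h1 : CTH_stmt) (h3 : CBA_stmt) (Q q : ℕ) (hq : q.Prime)
    (h : q % 5 = 1 ∨ q % 5 = 4) (hl : Q < q) (hu : q ≤ 2 * Q) :
    ∃ k : OO, k.norm.natAbs = q ∧ KK Q k := by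
  obtain ⟨r, hr⟩ := h1.2.1 q hq h
  have h5 : q ≠ 5 := by
    rintro rfl
    omega
  obtain ⟨g, ha, -, -, -⟩ := h1.1 q r hq h5 hr
  have hg : g ≠ 0 := by
    rintro rfl
    have h6 : (QuadraticAlgebra.norm (0 : OO)).natAbs = 0 := by
      rw [QuadraticAlgebra.norm_zero]
      rfl
    rw [h6] at ha
    exact hq.ne_zero ha.symm
  obtain ⟨k, hk, hka, hkb⟩ := h3 g hg
  have hn : k.norm.natAbs = q := by
    rw [← ha]
    exact (Int.associated_iff_natAbs.1 (hk.map QuadraticAlgebra.norm)).symm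
  rw [hn] at hka hkb
  refine ⟨k, hn, ?_⟩
  refine ⟨?_, ?_, ?_, ?_, ?_, ?_⟩
  · rw [hn]; exact hq
  · rw [hn]; exact h5
  · rw [hn]; exact hl
  · rw [hn]; exact hu
  · exact CKS_abs _ q Q hka hu
  · exact CKS_abs _ q Q hkb hu

/-- the family of a set of primes -/
lemma CKS_family (h1 : CTH_stmt) (h3 : CBA_stmt) (Q : ℕ) :
    ∃ T : Finset OO, KF Q T ∧
      T.card = ((Ioc Q (2 * Q)).filter (fun q => q.Prime ∧ (q % 5 = 1 ∨ q % 5 = 4))).card := by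
  classical
  have hch : ∀ q : ℕ, ∃ g : OO, (Q < q ∧ q ≤ 2 * Q) ∧ (q.Prime ∧ (q % 5 = 1 ∨ q % 5 = 4)) →
      (g.norm.natAbs = q ∧ KK Q g) := by
    intro q
    by_cases hq : (Q < q ∧ q ≤ 2 * Q) ∧ (q.Prime ∧ (q % 5 = 1 ∨ q % 5 = 4))
    · obtain ⟨g, hg⟩ := CKS_elem h1 h3 Q q hq.2.1 hq.2.2 hq.1.1 hq.1.2
      exact ⟨g, fun _ => hg⟩
    · exact ⟨0, fun h => absurd h hq⟩
  choose f hf using hch
  obtain ⟨P, hP⟩ : ∃ P, P =
      (Ioc Q (2 * Q)).filter (fun q => q.Prime ∧ (q % 5 = 1 ∨ q % 5 = 4)) := ⟨_, rfl⟩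
  have hPm : ∀ q ∈ P, (Q < q ∧ q ≤ 2 * Q) ∧ (q.Prime ∧ (q % 5 = 1 ∨ q % 5 = 4)) := by
    intro q hq
    rw [hP, Finset.mem_filter, Finset.mem_Ioc] at hq
    exact hq
  refine ⟨P.image f, ?_, ?_⟩
  · refine ⟨?_, ?_⟩
    · intro k hk
      obtain ⟨q, hq, rfl⟩ := Finset.mem_image.1 hk
      exact (hf q (hPm q hq)).2
    · intro k hk k' hk' hkk
      obtain ⟨q, hq, rfl⟩ := Finset.mem_image.1 hk
      obtain ⟨q', hq', rfl⟩ := Finset.mem_image.1 hk'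
      rw [(hf q (hPm q hq)).1, (hf q' (hPm q' hq')).1] at hkk
      rw [hkk]
  · rw [← hP]
    apply Finset.card_image_of_injOn
    intro q hq q' hq' hqq
    have e1 := (hf q (hPm q hq)).1
    have e2 := (hf q' (hPm q' hq')).1
    have e3 : f q = f q' := hqq
    rw [e3] at e1
    exact e1.symm.trans e2

theorem CKS (h1 : CTH_stmt) (h2 : CPR_stmt) (h3 : CBA_stmt) : CKS_stmt := by
  obtain ⟨B, c, X₀, hB, hc, h⟩ := h2
  refine ⟨B, c, X₀, hB, hc, ?_⟩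
  intro X hX
  obtain ⟨Q, hQ1, hQ2, hQ3⟩ := h X hX
  obtain ⟨T, hT, hcard⟩ := CKS_family h1 h3 Q
  refine ⟨Q, T, hQ1, hQ2, hT, ?_⟩
  rw [hcard]
  exact hQ3

end Pool.Agent.RF
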